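import Pool.Agent.MP_7fd204_co.Mg.GeoF
import Pool.Agent.MP_7fd204_co.Mg.Ck

/-! Every convex uniform 5-polytope is Wythoffian or similar to the prism over the grand antiprism. -/

namespace Pool.Agent.Results.MP_7fd204_co.Classification

open Pool.Agent.MP_7fd204_co

theorem result (P : Set E5) (h : IsUniform 5 P) : IsWythoffian P ∨ Similar P grandPrism :=
  main_of' UP.c3 UP.c4 UP.c5 P h

end Pool.Agent.Results.MP_7fd204_co.Classification
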